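import Mathlib

namespace Pool.Agent.Work.MP_0d14d1_co.H98

/-- A configuration of the game with `n` bins: for each bin, the multiset of the labels of the
balls it holds.  Bins and labels are numbered `0, …, n - 1`. -/
abbrev Config (n : ℕ) := Fin n → Multiset (Fin n)

/-- The starting configuration: bin `j` holds the two balls labelled `n - 1 - j`. -/
def start (n : ℕ) : Config n := fun j => {j.rev, j.rev}

/-- The sorted configuration: bin `j` holds the two balls labelled `j`. -/
def sorted (n : ℕ) : Config n := fun j => {j, j}

/-- One move: a ball (labelled `a`) of bin `j` and a ball (labelled `b`) of the next bin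
`k = j + 1` are exchanged; all other bins are unchanged. -/
def Move {n : ℕ} (c c' : Config n) : Prop :=
  ∃ (j k : Fin n) (a b : Fin n), k.val = j.val + 1 ∧ a ∈ c j ∧ b ∈ c k ∧
    c' j = b ::ₘ (c j).erase a ∧ c' k = a ::ₘ (c k).erase b ∧
    ∀ i, i ≠ j → i ≠ k → c' i = c i

/-- The starting configuration can be turned into the sorted one by exactly `t` moves. -/
def SortableIn (n t : ℕ) : Prop :=
  ∃ c : ℕ → Config n, c 0 = start n ∧ c t = sorted n ∧ ∀ s < t, Move (c s) (c (s + 1))

end Pool.Agent.Work.MP_0d14d1_co.H98
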