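import Pool.Agent.Work.MP_0d14d1_co.Tri

/-! The exceptional values `n = 1` and `n = 6` of the game. -/

namespace Pool.Agent.Work.MP_0d14d1_co.H98

abbrev St := List (ℕ × ℕ)

def mk (u v : ℕ) : ℕ × ℕ := if u ≤ v then (u, v) else (v, u)

/-- weight of a ball `a` lying to the left of a ball `b` -/
def cr (a b : ℕ) : ℕ := if a = b then 1 else if b < a then 2 else 0

/-- weight of the two balls of bin `j` -/
def inn (j a b : ℕ) : ℕ := if a = b then (if a = j then 0 else 2) else 1

def cross (p q : ℕ × ℕ) : ℕ := cr p.1 q.1 + cr p.1 q.2 + cr p.2 q.1 + cr p.2 q.2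

def crossSum (p : ℕ × ℕ) : St → ℕ
  | [] => 0
  | q :: r => cross p q + crossSum p r

def phi : ℕ → St → ℕ
  | _, [] => 0
  | j, p :: r => inn j p.1 p.2 + crossSum p r + phi (j + 1) r

def Pick (p : ℕ × ℕ) (a x : ℕ) : Prop := p = (a, x) ∨ p = (x, a)

inductive Step : St → St → Prop
  | here {p q : ℕ × ℕ} {a x b y : ℕ} (r : St) : Pick p a x → Pick q b y →
      Step (p :: q :: r) (mk b x :: mk a y :: r)
  | there (p : ℕ × ℕ) {l l' : St} : Step l l' → Step (p :: l) (p :: l')

/-- the exchange of `a` (bin `j`, beside `x`) and `b` (bin `j + 1`, beside `y`) is perfect -/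
def perf (j a x b y : ℕ) : Bool :=
  Nat.blt b a && (Nat.blt x a || (Nat.beq a x && !Nat.beq a j)) &&
    (Nat.blt y a || (Nat.beq a y && Nat.beq a (j + 1))) &&
    (Nat.blt b x || (Nat.beq b x && Nat.beq b j)) &&
    (Nat.blt b y || (Nat.beq b y && !Nat.beq b (j + 1)))

def loc (j a x b y : ℕ) (r : St) : List St :=
  bif perf j a x b y then [mk b x :: mk a y :: r] else []

def moves : ℕ → St → List St
  | j, p :: q :: r => loc j p.1 p.2 q.1 q.2 r ++ (loc j p.1 p.2 q.2 q.1 r ++
      (loc j p.2 p.1 q.1 q.2 r ++ (loc j p.2 p.1 q.2 q.1 r ++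
      (moves (j + 1) (q :: r)).map (p :: ·))))
  | _, _ => []

lemma cross_mk (p : ℕ × ℕ) (u v : ℕ) :
    cross p (mk u v) = cr p.1 u + cr p.1 v + cr p.2 u + cr p.2 v := by
  unfold mk cross; split_ifs <;> simp only; omega

lemma mk_cross (q : ℕ × ℕ) (u v : ℕ) :
    cross (mk u v) q = cr u q.1 + cr u q.2 + cr v q.1 + cr v q.2 := by
  unfold mk cross; split_ifs <;> simp only; omega

lemma inn_mk (j u v : ℕ) : inn j (mk u v).1 (mk u v).2 = inn j u v := by
  unfold mk inn; split_ifs <;> simp only at * <;> omega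

lemma Step.crossSum {l l' : St} (h : Step l l') (z : ℕ × ℕ) : crossSum z l' = crossSum z l := by
  induction h with
  | here r hp hq =>
    simp only [H98.crossSum, cross_mk]
    rcases hp with rfl | rfl <;> rcases hq with rfl | rfl <;> simp only [cross] <;> omega
  | there p _ ih => simp only [H98.crossSum, ih]

lemma crossSum_ex (p q : ℕ × ℕ) (a x b y : ℕ) (hp : Pick p a x) (hq : Pick q b y) (r : St) :
    crossSum (mk b x) r + crossSum (mk a y) r = crossSum p r + crossSum q r := by
  induction r with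
  | nil => rfl
  | cons z r ih =>
    simp only [crossSum, mk_cross]
    rcases hp with rfl | rfl <;> rcases hq with rfl | rfl <;> simp only [cross] at * <;> omega

lemma local_le (j a x b y : ℕ) :
    inn j a x + inn (j + 1) b y + (cr a b + cr a y + cr x b) ≤
      inn j b x + inn (j + 1) a y + (cr b a + cr b y + cr x a) +
        if perf j a x b y then 6 else 5 := by
  have h1 : inn j a x ≤ cr x a + if (x < a ∨ (a = x ∧ a ≠ j)) then 1 else 0 := by
    unfold inn cr; split_ifs <;> omega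
  have h2 : cr a y ≤ inn (j + 1) a y + if (y < a ∨ (a = y ∧ a = j + 1)) then 1 else 0 := by
    unfold inn cr; split_ifs <;> omega
  have h3 : cr x b ≤ inn j b x + if (b < x ∨ (b = x ∧ b = j)) then 1 else 0 := by
    unfold inn cr; split_ifs <;> omega
  have h4 : inn (j + 1) b y ≤ cr b y + if (b < y ∨ (b = y ∧ b ≠ j + 1)) then 1 else 0 := by
    unfold inn cr; split_ifs <;> omega
  have h5 : cr a b ≤ cr b a + if b < a then 2 else 0 := by
    unfold cr; split_ifs <;> omega
  simp only [perf, Bool.and_eq_true, Bool.or_eq_true, Nat.blt_eq, Nat.beq_eq, Bool.not_eq_true',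
    ← Bool.not_eq_true]
  split_ifs at * <;> omega

lemma inn_comm (j a b : ℕ) : inn j a b = inn j b a := by
  unfold inn; split_ifs <;> omega

lemma Step.phi {l l' : St} (h : Step l l') (j : ℕ) :
    phi j l ≤ phi j l' + 6 ∧ (phi j l ≤ phi j l' + 5 ∨ l' ∈ moves j l) := by
  induction h generalizing j with
  | @here p q a x b y r hp hq =>
    have h1 := crossSum_ex p q a x b y hp hq r
    have h2 := local_le j a x b y
    have h3 : inn j p.1 p.2 = inn j a x := by
      rcases hp with rfl | rfl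
      · rfl
      · exact inn_comm _ _ _
    have h4 : inn (j + 1) q.1 q.2 = inn (j + 1) b y := by
      rcases hq with rfl | rfl
      · rfl
      · exact inn_comm _ _ _
    have h5 : cross p q = cr a b + cr a y + cr x b + cr x y := by
      rcases hp with rfl | rfl <;> rcases hq with rfl | rfl <;> simp only [cross] <;> omega
    have h6 : cross (mk b x) (mk a y) = cr b a + cr b y + cr x a + cr x y := by
      rw [mk_cross]; unfold mk; split_ifs <;> simp only; omega
    simp only [H98.phi, H98.crossSum, inn_mk, h3, h4, h5, h6]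
    by_cases hf : perf j a x b y = true
    · rw [if_pos hf] at h2
      refine ⟨by omega, Or.inr ?_⟩
      rcases hp with rfl | rfl <;> rcases hq with rfl | rfl <;> simp [moves, loc, hf]
    · rw [if_neg hf] at h2
      exact ⟨by omega, Or.inl (by omega)⟩
  | @there p l l' h ih =>
    have h1 := h.crossSum p
    obtain ⟨h2, h3⟩ := ih (j + 1)
    simp only [H98.phi, h1]
    refine ⟨by omega, h3.imp (fun _ => by omega) fun h4 => ?_⟩
    have h5 : ∀ (q : ℕ × ℕ) (r : St), l' ∈ moves (j + 1) (q :: r) → p :: l' ∈ moves j (p :: q :: r) :=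
      fun q r h6 => by
        rw [moves]
        exact List.mem_append_right _ (List.mem_append_right _ (List.mem_append_right _
          (List.mem_append_right _ (List.mem_map_of_mem h6))))
    cases h <;> exact h5 _ _ h4

def fz {α : Type} (n : ℕ) (k : ℕ → α) : α := Nat.rec (k 0) (fun m _ => k m.succ) n

lemma fz_eq {α : Type} (n : ℕ) (k : ℕ → α) : fz n k = k n := by cases n <;> rfl

def enc : St → ℕ
  | [] => 1
  | p :: r => p.1 + 8 * p.2 + 64 * enc r

def dec : ℕ → ℕ → St
  | 0, _ => []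
  | m + 1, s => fz (s % 8) fun a => fz (s / 8 % 8) fun b => fz (s / 64) fun t => (a, b) :: dec m t

lemma dec_enc (l : St) (h : ∀ p ∈ l, p.1 < 8 ∧ p.2 < 8) : dec l.length (enc l) = l := by
  induction l with
  | nil => rfl
  | cons p r ih =>
    obtain ⟨h1, h2⟩ := h p List.mem_cons_self
    simp only [List.length_cons, dec, enc, fz_eq]
    rw [show (p.1 + 8 * p.2 + 64 * enc r) / 64 = enc r by omega,
      show (p.1 + 8 * p.2 + 64 * enc r) % 8 = p.1 by omega,
      show (p.1 + 8 * p.2 + 64 * enc r) / 8 % 8 = p.2 by omega,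
      ih fun q hq => h q (List.mem_cons_of_mem _ hq)]

inductive BT
  | leaf
  | node (l : BT) (k : ℕ) (r : BT)

def BT.ins (k : ℕ) : BT → BT
  | .leaf => .node .leaf k .leaf
  | .node l k' r =>
    bif Nat.beq k k' then .node l k' r
    else bif Nat.ble (k % 1009) (k' % 1009) then .node (l.ins k) k' r else .node l k' (r.ins k)

def BT.app : BT → List ℕ → List ℕ
  | .leaf, s => s
  | .node l v r, s => v :: l.app (r.app s)

lemma BT.mem_app (t : BT) (s : List ℕ) (v : ℕ) : v ∈ t.app s ↔ v ∈ t.app [] ∨ v ∈ s := by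
  induction t generalizing s with
  | leaf => simp [BT.app]
  | node l w r ihl ihr =>
    simp only [BT.app, List.mem_cons]
    rw [ihl (r.app s), ihl (r.app []), ihr s]
    tauto

lemma BT.mem_ins (t : BT) (v w : ℕ) (h : w = v ∨ w ∈ t.app []) : w ∈ (t.ins v).app [] := by
  induction t with
  | leaf => simpa [BT.ins, BT.app] using h
  | node l v' r ihl ihr =>
    simp only [BT.app, List.mem_cons] at h
    rw [BT.mem_app] at h
    unfold BT.ins
    simp only [cond_eq_ite, Nat.beq_eq]
    split_ifs with h1 h2 <;> simp only [BT.app, List.mem_cons] <;> rw [BT.mem_app]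
    · subst h1; tauto
    · tauto
    · tauto

def insAll : List St → BT → BT
  | [], t => t
  | v :: s, t => fz (enc v) fun k => insAll s (t.ins k)

lemma mem_insAll (s : List St) (t : BT) (w : ℕ) (h : (∃ v ∈ s, w = enc v) ∨ w ∈ t.app []) :
    w ∈ (insAll s t).app [] := by
  induction s generalizing t with
  | nil => simpa [insAll] using h
  | cons v s ih =>
    rw [insAll, fz_eq]
    refine ih _ ?_
    rcases h with ⟨u, hu, h⟩ | h
    · rcases List.mem_cons.1 hu with rfl | hu
      · exact Or.inr (BT.mem_ins _ _ _ (Or.inl h))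
      · exact Or.inl ⟨u, hu, h⟩
    · exact Or.inr (BT.mem_ins _ _ _ (Or.inr h))

def nextT : List ℕ → BT → BT
  | [], t => t
  | l :: s, t => nextT s (insAll (moves 0 (dec 6 l)) t)

lemma mem_nextT (s : List ℕ) (t : BT) (w : ℕ)
    (h : (∃ l ∈ s, ∃ v ∈ moves 0 (dec 6 l), w = enc v) ∨ w ∈ t.app []) :
    w ∈ (nextT s t).app [] := by
  induction s generalizing t with
  | nil => simpa [nextT] using h
  | cons v s ih =>
    refine ih _ ?_
    rcases h with ⟨l, hl, h⟩ | h
    · rcases List.mem_cons.1 hl with rfl | hl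
      · exact Or.inr (mem_insAll _ _ _ (Or.inl h))
      · exact Or.inl ⟨l, hl, h⟩
    · exact Or.inr (mem_insAll _ _ _ (Or.inr h))

def level : ℕ → List ℕ
  | 0 => [enc [(5, 5), (4, 4), (3, 3), (2, 2), (1, 1), (0, 0)]]
  | d + 1 => (nextT (level d) .leaf).app []

lemma level_22 : (level 22).isEmpty = true := by decide +kernel

/-- the list `l` describes the configuration `c` -/
def Rep (c : Config 6) (l : St) : Prop :=
  l.length = 6 ∧ ∀ j : Fin 6, (c j).map Fin.val = {(l.getD j (0, 0)).1, (l.getD j (0, 0)).2}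

lemma Rep.dec {c : Config 6} {l : St} (h : Rep c l) : dec 6 (enc l) = l := by
  refine h.1 ▸ dec_enc l fun p hp => ?_
  obtain ⟨i, hi, rfl⟩ := List.getElem_of_mem hp
  have h1 := h.2 ⟨i, h.1 ▸ hi⟩
  rw [List.getD_eq_getElem _ _ hi] at h1
  have h2 : ∀ z ∈ (c ⟨i, h.1 ▸ hi⟩).map Fin.val, z < 8 := fun z hz => by
    obtain ⟨u, -, rfl⟩ := Multiset.mem_map.1 hz
    omega
  rw [h1] at h2
  exact ⟨h2 _ (by simp), h2 _ (by simp)⟩

lemma pick_of {s : Multiset (Fin 6)} {p : ℕ × ℕ} (h : s.map Fin.val = {p.1, p.2}) {a : Fin 6}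
    (ha : a ∈ s) (b : Fin 6) : ∃ x, Pick p a x ∧
      (b ::ₘ s.erase a).map Fin.val = {(mk b x).1, (mk b x).2} := by
  have h1 : (a : ℕ) ∈ ({p.1, p.2} : Multiset ℕ) := h ▸ Multiset.mem_map_of_mem _ ha
  have h2 : ∀ x, ({(mk b x).1, (mk b x).2} : Multiset ℕ) = {b.val, x} := by
    intro x; unfold mk; split_ifs
    · rfl
    · exact Multiset.pair_comm _ _
  rw [Multiset.map_cons, Multiset.map_erase _ Fin.val_injective, h]
  simp only [h2]
  simp only [Multiset.insert_eq_cons, Multiset.mem_cons, Multiset.mem_singleton] at h1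
  rcases h1 with h1 | h1
  · exact ⟨p.2, Or.inl (by rw [h1]), by rw [h1]; simp [Multiset.insert_eq_cons]⟩
  · refine ⟨p.1, Or.inr (by rw [h1]), ?_⟩
    rw [h1, Multiset.pair_comm p.1 p.2]; simp [Multiset.insert_eq_cons]

lemma Rep.step {c c' : Config 6} {l : St} (h : Rep c l) (hm : Move c c') :
    ∃ l', Step l l' ∧ Rep c' l' := by
  obtain ⟨j, k, a, b, hjk, ha, hb, hj, hk, hi⟩ := hm
  obtain ⟨hl, hr⟩ := h
  obtain ⟨x, hx, hx'⟩ := pick_of (hr j) ha b
  obtain ⟨y, hy, hy'⟩ := pick_of (hr k) hb a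
  rw [← hj] at hx'
  rw [← hk] at hy'
  have hz : ∀ i, i ≠ j → i ≠ k → (c' i).map Fin.val =
      {(l.getD i (0, 0)).1, (l.getD i (0, 0)).2} := fun i h1 h2 => by rw [hi i h1 h2, hr]
  match l, hl with
  | [p0, p1, p2, p3, p4, p5], _ =>
    clear hr hi hj hk ha hb
    fin_cases j <;> fin_cases k <;> simp only [Nat.reduceAdd, Nat.reduceEqDiff] at hjk
    · refine ⟨_, .here _ hx hy, rfl, fun i => ?_⟩
      fin_cases i <;> first | exact hx' | exact hy' | exact hz _ (by decide) (by decide)
    · refine ⟨_, .there _ (.here _ hx hy), rfl, fun i => ?_⟩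
      fin_cases i <;> first | exact hx' | exact hy' | exact hz _ (by decide) (by decide)
    · refine ⟨_, .there _ (.there _ (.here _ hx hy)), rfl, fun i => ?_⟩
      fin_cases i <;> first | exact hx' | exact hy' | exact hz _ (by decide) (by decide)
    · refine ⟨_, .there _ (.there _ (.there _ (.here _ hx hy))), rfl, fun i => ?_⟩
      fin_cases i <;> first | exact hx' | exact hy' | exact hz _ (by decide) (by decide)
    · refine ⟨_, .there _ (.there _ (.there _ (.there _ (.here _ hx hy)))), rfl, fun i => ?_⟩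
      fin_cases i <;> first | exact hx' | exact hy' | exact hz _ (by decide) (by decide)

lemma pair_eq {p : ℕ × ℕ} {j : ℕ} (h : ({j, j} : Multiset ℕ) = {p.1, p.2}) : p = (j, j) := by
  have h1 : p.1 ∈ ({j, j} : Multiset ℕ) := by rw [h]; simp
  have h2 : p.2 ∈ ({j, j} : Multiset ℕ) := by rw [h]; simp
  simp only [Multiset.insert_eq_cons, Multiset.mem_cons, Multiset.mem_singleton, or_self] at h1 h2
  exact Prod.ext h1 h2

theorem not_22 : ¬ SortableIn 6 22 := by
  rintro ⟨c, h0, ht, hm⟩
  have key : ∀ d ≤ 22, ∃ l, Rep (c d) l ∧ 132 ≤ phi 0 l + 6 * d ∧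
      (enc l ∈ level d ∨ 133 ≤ phi 0 l + 6 * d) := by
    intro d
    induction d with
    | zero =>
      refine fun _ => ⟨[(5, 5), (4, 4), (3, 3), (2, 2), (1, 1), (0, 0)], ⟨rfl, fun j => ?_⟩,
        by decide, Or.inl (List.mem_singleton_self _)⟩
      rw [h0]; fin_cases j <;> rfl
    | succ d ih =>
      intro hd
      obtain ⟨l, h1, h2, h3⟩ := ih (by omega)
      obtain ⟨l', h4, h5⟩ := h1.step (hm d (by omega))
      obtain ⟨h6, h7⟩ := h4.phi 0
      refine ⟨l', h5, by omega, ?_⟩
      rcases h3 with h3 | h3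
      · rcases h7 with h7 | h7
        · exact Or.inr (by omega)
        · exact Or.inl (mem_nextT _ _ _ (Or.inl ⟨_, h3, l', h1.dec.symm ▸ h7, rfl⟩))
      · exact Or.inr (by omega)
  obtain ⟨l, ⟨hl, hr⟩, -, h3⟩ := key 22 le_rfl
  rcases h3 with h3 | h3
  · rw [List.isEmpty_iff.1 level_22] at h3
    exact absurd h3 List.not_mem_nil
  · rw [ht] at hr
    match l, hl with
    | [p0, p1, p2, p3, p4, p5], _ =>
      obtain rfl : p0 = (0, 0) := pair_eq (hr 0)
      obtain rfl : p1 = (1, 1) := pair_eq (hr 1)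
      obtain rfl : p2 = (2, 2) := pair_eq (hr 2)
      obtain rfl : p3 = (3, 3) := pair_eq (hr 3)
      obtain rfl : p4 = (4, 4) := pair_eq (hr 4)
      obtain rfl : p5 = (5, 5) := pair_eq (hr 5)
      exact absurd h3 (by decide)

def w6 : List ℤ := [2, 3, 4, 1, 3, 2, 5, 6, 3, 5, 4, 7, 8, 5, 7, 6, 3, 5, 4, 1, 3, 2, 9, 10, 7, 9,
  8, 5, 7, 6, 3, 5, 4, 1, 3, 2, 9, 11, 10, 7, 9, 8, 5, 7, 6, 7, 9, 8, 3, 5, 4, 7, 6, 1, 3, 2, 5,
  4, 7, 6, 1, 3, 5, 7, 9, 11]

theorem isLeast_six : IsLeast {t | SortableIn 6 t} 23 := by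
  refine ⟨?_, fun t ht => ?_⟩
  · have h : Sorts (2 * (6 : ℕ)) w6 := by
      refine ⟨by unfold Within; decide +kernel, fun p h1 h2 => ?_⟩
      have h3 : p ≤ 12 := h2
      interval_cases p <;> decide +kernel
    exact sortable_of_sorts (by omega) h
  · have h1 := lower (by omega) ht
    have h2 : t ≠ 22 := fun h => not_22 (h ▸ ht)
    omega

theorem isLeast_one : IsLeast {t | SortableIn 1 t} 0 :=
  ⟨⟨fun _ => start 1, rfl, funext fun j => by fin_cases j; rfl, fun _ h => absurd h (by omega)⟩,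
    fun _ _ => Nat.zero_le _⟩

/-- The value of the game for every `n ≥ 1`, from the upper bound for `n ≠ 1, 6`. -/
theorem isLeast_all (upper : ∀ n : ℕ, 2 ≤ n → n ≠ 6 →
      ∃ E, W (2 * n) E (rv (2 * n)) ∧ 3 * E ≤ n * (2 * n - 1) + 2) (n : ℕ) (hn : 1 ≤ n) :
    IsLeast {t | SortableIn n t}
      (if n = 1 then 0 else if n = 6 then 23 else (n * (2 * n - 1) + 2) / 3) := by
  split_ifs with h1 h6
  · exact h1 ▸ isLeast_one
  · exact h6 ▸ isLeast_six
  · exact isLeast_of_W (by omega) (upper n (by omega) h6)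

end Pool.Agent.Work.MP_0d14d1_co.H98
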